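import Pool.Agent.MZ.Main

/-!
# Mazur's conjecture on the topology of rational points for hypersurfaces of degree at most three

For every number `n` of variables and every polynomial `P` in `n` variables with rational
coefficients and total degree at most `3` (no smoothness, irreducibility or dimension
hypothesis), the closure in `ℝⁿ` of the set of rational zeros of `P` has only finitely many
connected components.
-/

open MvPolynomial Set

namespace Pool.Agent.Results.MP_4d3b00_ag.CubicHypersurfaces

/-- **Mazur's conjecture for all affine hypersurfaces of degree at most three.** -/
theorem result {n : ℕ} (P : MvPolynomial (Fin n) ℚ) (hP : P.totalDegree ≤ 3) :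
    Finite (ConnectedComponents
      ↥(closure {x : Fin n → ℝ | ∃ q : Fin n → ℚ, eval q P = 0 ∧ x = fun i => ((q i : ℚ) : ℝ)})) :=
  (Pool.Agent.MZ.fc_main n P hP).finite_components

end Pool.Agent.Results.MP_4d3b00_ag.CubicHypersurfaces
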