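import Pool.Agent.MZ.TwoQuad

/-!
# Mazur's conjecture on the topology of rational points for intersections of two quadrics

For every number `n` of variables and every two quadratic forms `Q₁`, `Q₂` with rational
coefficients (no smoothness or independence hypothesis) let `K` be the closure in `ℝⁿ` of the set
of common rational zeros. Then `K` minus the origin has only finitely many connected components,
hence so does the closure of the set of rational points of the projective variety
`Q₁ = Q₂ = 0`.
-/

open MvPolynomial Set

namespace Pool.Agent.Results.MP_4d3b00_ag.TwoQuadrics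

/-- **Mazur's conjecture for all intersections of two projective quadrics.** -/
theorem result {n : ℕ} (Q₁ Q₂ : MvPolynomial (Fin n) ℚ) (h₁ : Q₁.IsHomogeneous 2)
    (h₂ : Q₂.IsHomogeneous 2) :
    Finite (ConnectedComponents ↥{x : Fin n → ℝ | x ≠ 0 ∧ x ∈ closure {x : Fin n → ℝ |
      ∃ q : Fin n → ℚ, eval q Q₁ = 0 ∧ eval q Q₂ = 0 ∧ x = fun i => ((q i : ℚ) : ℝ)}}) :=
  (Pool.Agent.MZ.fc_two_quadrics h₁ h₂).finite_components

end Pool.Agent.Results.MP_4d3b00_ag.TwoQuadrics
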